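import Pool.Agent.K1H57.DW.Class
import Pool.Agent.R703.MO.Main

/-!
# Betti numbers above the middle dimension, degree by degree

Let `L` be the flag complex of the finite graph `G`, piecewise linearly embedded in the sphere of dimension `n - 1`.
The Davis complex of the right-angled Coxeter group `W G` thickens to a contractible `n`-manifold with boundary on
which `W G` acts properly and cocompactly, and the torsion-free subgroups of finite index of `W G` are the fundamental
groups of compact aspherical `n`-manifolds.

The class `VQ D` of finite graphs, for a set `D` of degrees, is the smallest class with the rules listed in its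
definition (`Pool/Agent/K1H57/DW/Class.lean`). It contains the earlier class `MQ b` for the degrees `≥ b`; the degrees
may be treated one by one by different rules and different decompositions; the Morse rules are stated in one degree;
Poincaré duality and the Euler characteristic give vanishing below the middle dimension, which can be used in joins.
-/

set_option autoImplicit false

namespace Pool.Agent.Results.MP_8fe54c_gt.DegreewiseClass

open Pool.Agent.W907.SG Pool.Agent.Y132.SI Pool.Agent.R703.MO Pool.Agent.K1H57.DW

/-- Let the finite graph `G` be in the class `VQ D`. (1) There are no nonzero `ℓ²` harmonic `i`-chains on the Davis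
complex of the right-angled Coxeter group `W G` for `i ∈ D`. (2) For each `ε > 0` there is a finite set `E` of
nontrivial elements of `W G` such that for every subgroup `H` of finite index which contains no conjugate of an
element of `E`, and for all `i ∈ D`, the `i`-th real Betti number of `H` (the dimension of the space of the
`H`-invariant real harmonic `i`-chains of the Davis complex) is at most `ε [W G : H]`. -/
theorem result : ∀ (D : ℕ → Prop) (V : Type) [Fintype V] [LinearOrder V] (G : SimpleGraph V), VQ D G →
    (∀ i : ℕ, D i → L2Van G i) ∧
    ∀ ε : ℝ, 0 < ε → ∃ E : Finset (W G), (1 : W G) ∉ E ∧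
      ∀ H : Subgroup (W G), H.FiniteIndex → (∀ g ∈ E, ∀ x : W G, x * g * x⁻¹ ∉ H) →
        ∀ i : ℕ, D i → (Module.finrank ℝ (HInv G H i) : ℝ) ≤ ε * H.index := by
  intro D V _ _ G h
  have h1 : ∀ i : ℕ, D i → L2Van G i := fun i hi => van_VQ h i hi
  exact ⟨h1, fun ε hε => growth_set G D h1 ε hε⟩

end Pool.Agent.Results.MP_8fe54c_gt.DegreewiseClass
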